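import Pool.Agent.HUK.StmtsA
import Pool.Agent.Helper33_MTL.Fra

/-! HUK, row SVA: for the places at all algebraic points outside of a small set, the image of the
decomposition group contains the image of a subgroup of finite index. -/

set_option autoImplicit false

namespace Pool.Agent.HUK.H88

open Polynomial NumberField Matrix Pool.Agent.MTL Pool.Agent.MTL.H34 Pool.Agent.Helper78_MT
  Pool.Agent.HIK Pool.Agent.HUK

/-- a closed subgroup of finite index of a compact group contains the elements close to one -/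
theorem exists_nbhd {d : Type} [Fintype d] [DecidableEq d] {ℓ : ℕ} [Fact ℓ.Prime]
    (G W : Subgroup (GL d ℚ_[ℓ])) (hWc : IsClosed (W : Set (GL d ℚ_[ℓ])))
    (h0 : W.relIndex G ≠ 0) : ∃ V : Set (GL d ℚ_[ℓ]), IsOpen V ∧ 1 ∈ V ∧ ∀ g ∈ G, g ∈ V → g ∈ W := by
  have hf : (W.subgroupOf G).FiniteIndex := ⟨h0⟩
  have hc : IsClosed ((W.subgroupOf G : Subgroup G) : Set G) := hWc.preimage continuous_subtype_val
  have ho : IsOpen ((W.subgroupOf G : Subgroup G) : Set G) :=
    Subgroup.isOpen_of_isClosed_of_finiteIndex _ hc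
  obtain ⟨V, hV, hVe⟩ := isOpen_induced_iff.1 ho
  refine ⟨V, hV, ?_, fun g hg hgV => ?_⟩
  · have h1 : (1 : G) ∈ (Subtype.val ⁻¹' V : Set G) := by
      rw [hVe]
      exact (W.subgroupOf G).one_mem
    exact h1
  · have h1 : (⟨g, hg⟩ : G) ∈ (Subtype.val ⁻¹' V : Set G) := hgV
    rw [hVe] at h1
    exact Subgroup.mem_subgroupOf.1 h1

theorem sva (hca : HcaStmt) (ctp : CtpStmt) (idx : IdxStmt) (fgi : FgiStmt) (dga : DgaStmt) :
    SvaStmt := by
  classical
  intro H hH d _ _ ℓ _ ρ hρ
  have hHc : IsClosed (H : Set GT) := Subgroup.isClosed_of_isOpen _ hH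
  have hcH : CompactSpace H := isCompact_iff_compactSpace.1 hHc.isCompact
  have hGc : IsCompact (ρ.range : Set (GL d ℚ_[ℓ])) := by
    rw [MonoidHom.coe_range]
    exact isCompact_range hρ
  -- the groups W
  have hstep : ∀ m : ℕ, ∃ (W : Subgroup (GL d ℚ_[ℓ])) (S : Set QB), Spa QB (1 / 4) S ∧
      W.relIndex ρ.range ≠ 0 ∧ W ≤ ρ.range ∧
      ∀ π : BB →+* QB, π (algebraMap ℚ[X] BB X) ∉ S →
        (minpoly ℚ (π (algebraMap ℚ[X] BB X))).natDegree = m →
        ∀ w ∈ W, ∃ σ : H, (σ : GT) ∈ decG π ∧ ρ σ = w := by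
    intro m
    obtain ⟨W, hWG, hWc, hW0, hWH⟩ := fgi d ℓ ρ.range hGc m
    obtain ⟨V, hVo, hV1, hV⟩ := exists_nbhd ρ.range W hWc hW0
    obtain ⟨U, hUo, hU1, hU⟩ := Pool.Agent.MTL.H33.fra d ℓ W (hGc.of_isClosed_subset hWc hWG)
    have hW1 : IsOpen (ρ ⁻¹' (U ∩ V)) := (hUo.inter hVo).preimage hρ
    have hW2 : IsOpen (Subtype.val '' (ρ ⁻¹' (U ∩ V)) : Set GT) := hH.isOpenMap_subtype_val _ hW1
    obtain ⟨N, hN⟩ := ProfiniteGrp.exist_openNormalSubgroup_sub_open_nhds_of_one (G := GT) hW2
      ⟨1, by rw [Set.mem_preimage, map_one]; exact ⟨hU1, hV1⟩, rfl⟩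
    obtain ⟨S, hS, hS2⟩ := hca N.toSubgroup N.isNormal' N.isOpen'
    refine ⟨W, S, hS, hW0, hWG, ?_⟩
    intro π hπ hdeg
    obtain ⟨c, hcalg, hcπ, hc⟩ := hS2 π hπ
    -- the equation of the constant
    obtain ⟨p, hp0, hpd, hpc⟩ : ∃ p : ℤ[X], p ≠ 0 ∧ p.natDegree ≤ m ∧ aeval (c : Om) p = 0 := by
      obtain ⟨α, hα⟩ : ∃ α : QB, α = π (algebraMap ℚ[X] BB X) := ⟨_, rfl⟩
      rw [← hα] at hdeg hcπ
      have hαi : IsIntegral ℚ α := (AlgebraicClosure.isAlgebraic ℚ).isIntegral.isIntegral α
      obtain ⟨b, hb⟩ := IsLocalization.integerNormalization_map_to_map (nonZeroDivisors ℤ)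
        (minpoly ℚ α)
      have hb0 : ((b : ℤ) : ℚ) ≠ 0 := by
        have := nonZeroDivisors.ne_zero b.2
        exact_mod_cast this
      have hb2 : (IsLocalization.integerNormalization (nonZeroDivisors ℤ) (minpoly ℚ α)).map
          (algebraMap ℤ ℚ) = C ((b : ℤ) : ℚ) * minpoly ℚ α := by
        rw [hb]
        ext i
        rw [Polynomial.coeff_C_mul]
        change ((b : nonZeroDivisors ℤ) • (minpoly ℚ α)).coeff i = _
        rw [Polynomial.coeff_smul]
        change ((b : ℤ) • (minpoly ℚ α).coeff i : ℚ) = _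
        rw [zsmul_eq_mul]
      obtain ⟨p, hp⟩ : ∃ p : ℤ[X], p =
          IsLocalization.integerNormalization (nonZeroDivisors ℤ) (minpoly ℚ α) := ⟨_, rfl⟩
      rw [← hp] at hb2
      have hinj : Function.Injective (algebraMap ℤ ℚ) := (algebraMap ℤ ℚ).injective_int
      have hmne : minpoly ℚ α ≠ 0 := minpoly.ne_zero hαi
      have hp0 : p ≠ 0 := by
        intro h
        rw [h, Polynomial.map_zero] at hb2
        exact mul_ne_zero (Polynomial.C_ne_zero.2 hb0) hmne hb2.symm
      refine ⟨p, hp0, ?_, ?_⟩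
      · rw [← Polynomial.natDegree_map_eq_of_injective hinj p, hb2,
          Polynomial.natDegree_C_mul hb0, hdeg]
      · have h1 : aeval α p = 0 := by
          have h2 : aeval α (p.map (algebraMap ℤ ℚ)) = aeval α p :=
            Polynomial.aeval_map_algebraMap ℚ α p
          rw [← h2, hb2, map_mul, minpoly.aeval, mul_zero]
        have h3 : π (aeval c p) = 0 := by
          rw [← h1, ← hcπ, aeval_def, aeval_def, hom_eval₂]
          congr 1
          exact Subsingleton.elim _ _
        have hcc : ((aeval c p : BB) : Om) = aeval (c : Om) p := by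
          have h4 := Polynomial.hom_eval₂ p (algebraMap ℤ BB) (algebraMap BB Om) c
          have h5 : (algebraMap BB Om).comp (algebraMap ℤ BB) = algebraMap ℤ Om :=
            Subsingleton.elim _ _
          rw [h5] at h4
          exact h4
        have halg : IsAlgebraic ℚ ((aeval c p : BB) : Om) := by
          rw [hcc]
          have h6 : aeval (c : Om) (p.map (algebraMap ℤ ℚ)) = aeval (c : Om) p := by
            rw [aeval_def, aeval_def, eval₂_map]
            congr 1
            exact Subsingleton.elim _ _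
          rw [← h6]
          have h8 : (c : Om) ∈ integralClosure ℚ Om := hcalg.isIntegral
          have h9 : aeval (c : Om) (p.map (algebraMap ℤ ℚ)) ∈ integralClosure ℚ Om := by
            have := Subalgebra.aeval_coe (integralClosure ℚ Om) ⟨(c : Om), h8⟩
              (p.map (algebraMap ℤ ℚ))
            rw [show (c : Om) = ((⟨(c : Om), h8⟩ : integralClosure ℚ Om) : Om) from rfl, this]
            exact Subtype.property _
          exact IsIntegral.isAlgebraic h9
        have h7 := (ctp π).2.1 (aeval c p) 0 halg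
          (by rw [ZeroMemClass.coe_zero]; exact isAlgebraic_zero) (by rw [h3, map_zero])
        rw [← hcc, h7]
        rfl
    obtain ⟨hstc, hst0, hstm⟩ := idx (c : Om) p hp0 hpc
    -- the stabiliser of the constant in `H`
    obtain ⟨St, hSt⟩ : ∃ St : Subgroup GT, St = MulAction.stabilizer GT (c : Om) := ⟨_, rfl⟩
    rw [← hSt] at hstc hst0 hstm
    have hrel0 : St.relIndex H ≠ 0 := by
      intro h
      apply hst0
      rw [← Subgroup.relIndex_top_right]
      exact Subgroup.relIndex_eq_zero_of_le_right le_top h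
    have hrel : St.relIndex H ≤ m := by
      have h1 : St.relIndex H ≤ St.relIndex ⊤ := Subgroup.relIndex_le_of_le_right le_top (by
        rw [Subgroup.relIndex_top_right]
        exact hst0)
      rw [Subgroup.relIndex_top_right] at h1
      exact h1.trans (hstm.trans hpd)
    obtain ⟨Hc, hHcdef⟩ : ∃ Hc : Subgroup H, Hc = St.subgroupOf H := ⟨_, rfl⟩
    have hHcc : IsClosed (Hc : Set H) := by
      rw [hHcdef]
      exact hstc.preimage continuous_subtype_val
    have hidx0 : Hc.index ≠ 0 := by rw [hHcdef]; exact hrel0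
    have hidx : Hc.index ≤ m := by rw [hHcdef]; exact hrel
    have hmapidx : (Hc.map ρ).relIndex ρ.range ∣ Hc.index := by
      have h1 : (Hc.map ρ).subgroupOf ρ.range = Hc.map ρ.rangeRestrict := by
        ext x
        rw [Subgroup.mem_subgroupOf, Subgroup.mem_map, Subgroup.mem_map]
        constructor
        · rintro ⟨y, hy, hxy⟩
          exact ⟨y, hy, Subtype.ext hxy⟩
        · rintro ⟨y, hy, hxy⟩
          exact ⟨y, hy, congrArg Subtype.val hxy⟩
      rw [Subgroup.relIndex, h1]
      exact Subgroup.index_map_dvd Hc ρ.rangeRestrict_surjective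
    have hWle : W ≤ Hc.map ρ := by
      apply hWH
      · rintro g ⟨h, -, rfl⟩
        exact ⟨h, rfl⟩
      · rw [Subgroup.coe_map]
        exact (hHcc.isCompact.image hρ).isClosed
      · intro h
        rw [h] at hmapidx
        exact hidx0 (Nat.eq_zero_of_zero_dvd hmapidx)
      · exact (Nat.le_of_dvd (Nat.pos_of_ne_zero hidx0) hmapidx).trans hidx
    -- the closed subgroup
    have hD : ((decG π).comap H.subtype).map ρ ⊓ W = W := by
      apply hU
      · rw [Subgroup.coe_inf, Subgroup.coe_map]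
        refine IsClosed.inter ?_ hWc
        refine (IsClosed.isCompact ?_).image hρ |>.isClosed
        exact (decG_closed π).preimage continuous_subtype_val
      · exact inf_le_right
      · intro w hw
        obtain ⟨γ, hγ, rfl⟩ := hWle hw
        have hγc : (γ : GT) • c = c := by
          have h1 : (γ : GT) ∈ St := by
            rw [hHcdef] at hγ
            exact Subgroup.mem_subgroupOf.1 hγ
          rw [hSt, MulAction.mem_stabilizer_iff] at h1
          exact Subtype.ext h1
        obtain ⟨σ, hσ, -, hσγ⟩ := hc γ hγc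
        obtain ⟨n, hn, hn2⟩ := hN hσγ
        have hσH : σ ∈ H := by
          have h3 : σ = (γ : GT) * (n : GT)⁻¹ := by
            rw [hn2]
            group
          rw [h3]
          exact H.mul_mem γ.2 (H.inv_mem n.2)
        have h4 : (⟨σ, hσH⟩ : H)⁻¹ * γ = n := Subtype.ext hn2.symm
        have h5 : (ρ ⟨σ, hσH⟩)⁻¹ * ρ γ = ρ n := by
          rw [← map_inv, ← map_mul, h4]
        have h6 : ρ n ∈ W := hV _ ⟨n, rfl⟩ hn.2
        have h7 : ρ ⟨σ, hσH⟩ = ρ γ * (ρ n)⁻¹ := by
          rw [← h5]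
          group
        refine ⟨ρ ⟨σ, hσH⟩, ⟨Subgroup.mem_map_of_mem _ hσ, ?_⟩, ?_⟩
        · rw [h7]
          exact W.mul_mem hw (W.inv_mem h6)
        · rw [h5]
          exact hn.1
    intro w hw
    rw [← hD] at hw
    obtain ⟨⟨σ, hσ, hσw⟩, -⟩ := hw
    exact ⟨σ, hσ, hσw⟩
  choose W S hS hW0 hWG hWS using hstep
  refine ⟨{α : QB | α ∈ S (minpoly ℚ α).natDegree}, dga _ S hS, ?_⟩
  intro π hπ
  obtain ⟨m, hm⟩ : ∃ m, m = (minpoly ℚ (π (algebraMap ℚ[X] BB X))).natDegree := ⟨_, rfl⟩
  have hπm : π (algebraMap ℚ[X] BB X) ∉ S m := by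
    rw [hm]
    exact hπ
  refine ⟨(W m).comap ρ, ⟨?_⟩, ?_⟩
  · rw [Subgroup.index_comap]
    exact hW0 m
  · intro γ hγ
    exact hWS m π hπm hm.symm _ hγ

end Pool.Agent.HUK.H88
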